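import Pool.Agent.LibQC8.Poly
import Mathlib.NumberTheory.BernoulliPolynomials

/-!
Polynomial functions on groups of rank one.
-/

open scoped Classical

namespace Pool.Agent.LibQC8

open Pool.Agent.LibBH2

/-- every polynomial is a difference `P (X + 1) - P X` -/
theorem antidiff (d : ℕ) (Q : Polynomial ℚ) (hQ : Q.natDegree ≤ d) :
    ∃ P : Polynomial ℚ, P.natDegree ≤ d + 1 ∧ ∀ x : ℚ, P.eval (x + 1) - P.eval x = Q.eval x := by
  refine ⟨∑ i ∈ Finset.range (d + 1), Polynomial.C (Q.coeff i / (i + 1)) *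
    Polynomial.bernoulli (i + 1), ?_, ?_⟩
  · refine Polynomial.natDegree_sum_le_of_forall_le _ _ fun i hi => ?_
    rw [Finset.mem_range] at hi
    refine (Polynomial.natDegree_C_mul_le _ _).trans ?_
    rw [Polynomial.natDegree_le_iff_coeff_eq_zero]
    intro n hn
    rw [Polynomial.coeff_bernoulli, if_neg (by omega)]
  · intro x
    rw [Polynomial.eval_finsetSum, Polynomial.eval_finsetSum, ← Finset.sum_sub_distrib,
      Polynomial.eval_eq_sum_range' (Nat.lt_succ_of_le hQ)]
    refine Finset.sum_congr rfl fun i _ => ?_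
    rw [Polynomial.eval_mul, Polynomial.eval_mul, Polynomial.eval_C, Polynomial.eval_C,
      add_comm x 1, Polynomial.bernoulli_eval_one_add, Nat.add_sub_cancel]
    have : ((i : ℚ) + 1) ≠ 0 := by positivity
    push_cast
    field_simp
    ring

variable {G : Type} [AddCommGroup G]

theorem exists_poly {d : ℕ} {f : G → ℚ} (hf : IsPoly d f) (u v : G) :
    ∃ P : Polynomial ℚ, P.natDegree ≤ d ∧ ∀ n : ℤ, f (u + n • v) = P.eval (n : ℚ) := by
  induction d generalizing f u with
  | zero =>
    refine ⟨Polynomial.C (f u), by simp, fun n => ?_⟩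
    rw [Polynomial.eval_C]
    exact hf u (n • v)
  | succ d ih =>
    obtain ⟨Q, hQ, hq⟩ := ih (hf v) u
    obtain ⟨P, hP, hp⟩ := antidiff d Q hQ
    refine ⟨P + Polynomial.C (f u - P.eval 0), ?_, fun n => ?_⟩
    · refine (Polynomial.natDegree_add_le _ _).trans (max_le hP ?_)
      simp
    · rw [Polynomial.eval_add, Polynomial.eval_C]
      have h : ∀ n : ℤ, f (u + (n + 1) • v) - P.eval ((n : ℚ) + 1) =
          f (u + n • v) - P.eval (n : ℚ) := by
        intro n
        have h1 := hq n
        have h2 := hp n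
        rw [show u + n • v + v = u + (n + 1) • v by rw [add_smul, one_smul, add_assoc]] at h1
        linarith
      induction n using Int.induction_on with
      | zero => simp
      | succ n ih =>
        have := h n
        push_cast at this ih ⊢
        linarith
      | pred n ih =>
        have := h (-n - 1)
        rw [show (-(n : ℤ) - 1 + 1) = -n by ring] at this
        push_cast at this ih ⊢
        rw [show (-(n : ℚ) - 1 + 1) = -n by ring] at this
        linarith

/-- on a group of rank one a polynomial function is a polynomial in one rational variable -/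
theorem exists_coord {d : ℕ} {f : G → ℚ} (hf : IsPoly d f) (c : G)
    (hc : ∀ n : ℤ, n ≠ 0 → n • c ≠ 0)
    (h1 : ∀ u v : G, ∃ a b : ℤ, (a ≠ 0 ∨ b ≠ 0) ∧ a • u = b • v) :
    ∃ P : Polynomial ℚ, P.natDegree ≤ d ∧ ∀ u : G, ∃ a b : ℤ, a ≠ 0 ∧ a • u = b • c ∧
      f u = P.eval ((b : ℚ) / a) := by
  obtain ⟨P, hP, hp⟩ := exists_poly hf 0 c
  refine ⟨P, hP, fun u => ?_⟩
  obtain ⟨a, b, hab, e⟩ := h1 u c
  have ha : a ≠ 0 := by
    rintro rfl
    rw [zero_smul] at e
    exact hc b (by simpa using hab) e.symm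
  refine ⟨a, b, ha, e, ?_⟩
  obtain ⟨R, _, hr⟩ := exists_poly hf 0 u
  have h2 : R.comp (Polynomial.C (a : ℚ) * Polynomial.X) =
      P.comp (Polynomial.C (b : ℚ) * Polynomial.X) := by
    refine Polynomial.eq_of_infinite_eval_eq _ _ ?_
    refine (Set.infinite_range_of_injective (Int.cast_injective (α := ℚ))).mono ?_
    rintro _ ⟨n, rfl⟩
    simp only [Set.mem_ofPred_eq, Polynomial.eval_comp, Polynomial.eval_mul, Polynomial.eval_C,
      Polynomial.eval_X]
    have e1 := hr (a * n)
    have e2 := hp (b * n)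
    push_cast at e1 e2
    rw [← e1, ← e2, mul_comm a n, mul_comm b n, mul_smul, mul_smul, e]
  have h3 := congrArg (Polynomial.eval (1 / (a : ℚ))) h2
  have ha' : (a : ℚ) ≠ 0 := by exact_mod_cast ha
  simp only [Polynomial.eval_comp, Polynomial.eval_mul, Polynomial.eval_C, Polynomial.eval_X] at h3
  rw [mul_one_div_cancel ha', mul_one_div] at h3
  have h4 := hr 1
  rw [one_smul, zero_add, Int.cast_one] at h4
  rw [h4, h3]

/-- a polynomial function of degree `≤ d + 1` on a group of rank one with `d + 2` zeros, distinct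
modulo torsion, is zero -/
theorem zero_of_rank_one {d : ℕ} {f : G → ℚ} (hf : IsPoly (d + 1) f)
    (h1 : ∀ u v : G, ∃ a b : ℤ, (a ≠ 0 ∨ b ≠ 0) ∧ a • u = b • v)
    (x : Fin (d + 2) → G) (hx : ∀ i j, i ≠ j → ∀ n : ℤ, n ≠ 0 → n • x i ≠ n • x j)
    (h0 : ∀ i, f (x i) = 0) (u : G) : f u = 0 := by
  have h01 : (0 : Fin (d + 2)) ≠ 1 := by simp
  obtain ⟨P, hP, hp⟩ := exists_coord hf (x 0 - x 1)
    (fun n hn h => hx 0 1 h01 n hn (by rwa [smul_sub, sub_eq_zero] at h)) h1
  choose a b ha hab hf' using hp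
  have hr : Function.Injective fun i : Fin (d + 2) => (b (x i) : ℚ) / a (x i) := by
    intro i j hij
    by_contra hne
    have hi : (a (x i) : ℚ) ≠ 0 := by exact_mod_cast ha _
    have hj : (a (x j) : ℚ) ≠ 0 := by exact_mod_cast ha _
    simp only at hij
    rw [div_eq_div_iff hi hj] at hij
    have hij' : b (x i) * a (x j) = b (x j) * a (x i) := by exact_mod_cast hij
    refine hx i j hne (a (x i) * a (x j)) (mul_ne_zero (ha _) (ha _)) ?_
    rw [mul_comm (a (x i)), mul_smul, hab, ← mul_smul, mul_comm (a (x j)), hij', mul_comm (b (x j)),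
      mul_smul, ← hab (x j), ← mul_smul, mul_comm (a (x i))]
  have hP0 : P = 0 := by
    refine Polynomial.eq_zero_of_natDegree_lt_card_of_eval_eq_zero P hr (fun i => ?_) ?_
    · rw [← hf', h0]
    · rw [Fintype.card_fin]; omega
  rw [hf', hP0, Polynomial.eval_zero]

end Pool.Agent.LibQC8
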