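import Pool.Agent.LibQC8.Main
import Pool.Agent.LibQC8.RankOne

/-!
The case `d = 1` and groups of rank one.
-/

open scoped Classical

namespace Pool.Agent.LibQC8

open Pool.Agent.LibBH2

variable {k F : Type} [Field k] [Field F] [Algebra k F]

/-- polynomial functions of degree `≤ 1` are affine -/
theorem affine_sum {M : Type} [AddCommGroup M] (n : ℕ) (m : Fin n → ℤ) (u : Fin n → M)
    (h0 : ∑ j, m j = 0) (q : ℕ) (hq : 0 < q) (h1 : q • ∑ j, m j • u j = 0) (f : M → ℚ)
    (hf : IsPoly 1 f) : ∑ j, (m j : ℚ) * f (u j) = 0 := by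
  let g : M →+ ℚ := AddMonoidHom.mk' (fun v => f v - f 0) fun v t => by
    have := hf t 0 v
    simp only [zero_add] at this
    linarith
  have hg : ∀ v, f v = f 0 + g v := fun v => by
    show f v = f 0 + (f v - f 0)
    ring
  have h2 : g (∑ j, m j • u j) = 0 := by
    have := congrArg g h1
    rw [map_nsmul, map_zero, nsmul_eq_mul] at this
    rcases mul_eq_zero.1 this with h | h
    · exact absurd h (by exact_mod_cast hq.ne')
    · exact h
  have h3 : ((∑ j, m j : ℤ) : ℚ) = 0 := by rw [h0, Int.cast_zero]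
  rw [Int.cast_sum] at h3
  have h4 : ∑ j, (m j : ℚ) * f (u j) = (∑ j, (m j : ℚ)) * f 0 + g (∑ j, m j • u j) := by
    rw [map_sum, Finset.sum_mul, ← Finset.sum_add_distrib]
    refine Finset.sum_congr rfl fun j _ => ?_
    rw [map_zsmul, zsmul_eq_mul, hg (u j)]
    ring
  rw [h4, h3, h2, zero_mul, add_zero]

/-- groups of rank one -/
theorem noHypersurface_rank_one (w : Place k F) (M : AddSubgroup (Pic0 k F)) (d : ℕ)
    (h : RankOnePoints w M d) : NoHypersurface w M d := by
  obtain ⟨h1, E, x, hE, hx, hne⟩ := h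
  intro f hf hv u
  exact zero_of_rank_one hf h1 x hne (fun i => hv (E i) (x i) (hE i) (hx i)) u

theorem IsPoly.comp {G H : Type} [AddCommGroup G] [AddCommGroup H] {d : ℕ} {f : H → ℚ}
    (hf : IsPoly d f) (φ : G →+ H) : IsPoly d (fun u => f (φ u)) := by
  induction d generalizing f with
  | zero => intro u v; show f (φ (u + v)) = f (φ u); rw [map_add, hf]
  | succ d ih =>
    intro v
    have := ih (hf (φ v))
    refine (congrArg (IsPoly d) ?_).mp this
    funext u
    show f (φ u + φ v) - f (φ u) = f (φ (u + v)) - f (φ u)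
    rw [map_add]

/-- the condition passes to groups with the same rational span -/
theorem noHypersurface_saturate (w : Place k F) (M M' : AddSubgroup (Pic0 k F)) (d : ℕ)
    (hM : NoHypersurface w M d) (hle : M ≤ M')
    (hs : ∀ u ∈ M', ∃ q : ℤ, q ≠ 0 ∧ q • u ∈ M) : NoHypersurface w M' d := by
  intro f hf hv u
  have h0 : ∀ u : M, f (AddSubgroup.inclusion hle u) = 0 := by
    refine hM _ (hf.comp (AddSubgroup.inclusion hle)) fun D u hD hu => ?_
    exact hv D _ hD (by simpa using hu)
  obtain ⟨q, hq, hu⟩ := hs u u.2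
  obtain ⟨P, _, hP⟩ := exists_poly hf 0 u
  have hP0 : P.comp (Polynomial.C (q : ℚ) * Polynomial.X) = 0 := by
    refine Polynomial.eq_of_infinite_eval_eq _ _ ?_
    refine (Set.infinite_range_of_injective (Int.cast_injective (α := ℚ))).mono ?_
    rintro _ ⟨n, rfl⟩
    simp only [Set.mem_ofPred_eq, Polynomial.eval_comp, Polynomial.eval_mul, Polynomial.eval_C,
      Polynomial.eval_X, Polynomial.eval_zero]
    have e1 := hP (n * q)
    push_cast at e1
    rw [mul_comm (q : ℚ), ← e1, zero_add]
    have e2 := h0 ⟨(n * q) • (u : Pic0 k F), by rw [mul_smul]; exact zsmul_mem hu n⟩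
    rw [← e2]
    congr 1
  have h3 := congrArg (Polynomial.eval (1 / (q : ℚ))) hP0
  have hq' : (q : ℚ) ≠ 0 := by exact_mod_cast hq
  simp only [Polynomial.eval_comp, Polynomial.eval_mul, Polynomial.eval_C, Polynomial.eval_X,
    Polynomial.eval_zero] at h3
  rw [mul_one_div_cancel hq'] at h3
  have h4 := hP 1
  rw [one_smul, zero_add, Int.cast_one, h3] at h4
  exact h4

/-- the criterion with all its forms of the hypotheses -/
theorem criterion' (hF : IsFunctionField k F) (w : Place k F) (M : AddSubgroup (Pic0 k F)) (d : ℕ)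
    (hM : ManyPoints w M d ∨ RankOnePoints w M d) (ξ : Pic0 k F) (N n : ℕ)
    (D : Fin n → Multiset (Place k F)) (m : Fin n → ℤ) (u : Fin n → M) (hD : ∀ j, (D j).card = N)
    (hu : ∀ j, cl w (D j) = ξ + u j) (h : PolyKilled d m u ∨ d = 1 ∧ DegreeSumZero m u) :
    IsTorsionCycle N (∑ j, Finsupp.single (D j) (m j)) := by
  have hM' : NoHypersurface w M d := by
    rcases hM with ⟨M₀, hle, hs, h0⟩ | hM
    · exact noHypersurface_saturate w M₀ M d h0 hle hs
    · exact noHypersurface_rank_one w M d hM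
  refine criterion hF w M d hM' ξ N n D m u hD hu ?_
  rcases h with h | ⟨rfl, h0, q, hq, h1⟩
  · exact h
  · exact fun f hf => affine_sum n m u h0 q hq h1 f hf

end Pool.Agent.LibQC8
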