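import Pool.Agent.LibQC8.Defs

/-!
Polynomial functions given by the coefficients of a multiplicative family of power series.
-/

open scoped Classical
open PowerSeries

namespace Pool.Agent.LibQC8

open Pool.Agent.LibBH2

section

variable {G : Type} [AddCommGroup G]

theorem IsPoly.zero (d : ℕ) : IsPoly d (fun _ : G => (0 : ℚ)) := by
  induction d with
  | zero => intro u v; rfl
  | succ d ih => intro v; simpa using ih

theorem IsPoly.add {d : ℕ} {f g : G → ℚ} (hf : IsPoly d f) (hg : IsPoly d g) :
    IsPoly d (fun u => f u + g u) := by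
  induction d generalizing f g with
  | zero => intro u v; simp only [hf u v, hg u v]
  | succ d ih =>
    intro v
    have := ih (hf v) (hg v)
    refine (congrArg (IsPoly d) ?_).mp this
    funext u
    ring

theorem IsPoly.succ {d : ℕ} {f : G → ℚ} (hf : IsPoly d f) : IsPoly (d + 1) f := by
  induction d generalizing f with
  | zero =>
    intro v u t
    show f (u + t + v) - f (u + t) = f (u + v) - f u
    rw [hf (u + t) v, hf u v, sub_self, sub_self]
  | succ d ih => exact fun v => ih (hf v)

theorem IsPoly.mono {d e : ℕ} (h : d ≤ e) {f : G → ℚ} (hf : IsPoly d f) : IsPoly e f := by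
  induction h with
  | refl => exact hf
  | step _ ih => exact ih.succ

theorem IsPoly.sum {d : ℕ} {ι : Type} (s : Finset ι) (f : ι → G → ℚ)
    (hf : ∀ i ∈ s, IsPoly d (f i)) : IsPoly d (fun u => ∑ i ∈ s, f i u) := by
  induction s using Finset.induction_on with
  | empty => simpa using IsPoly.zero d
  | insert i s hi ih =>
    simp only [Finset.sum_insert hi]
    exact (hf i (Finset.mem_insert_self _ _)).add
      (ih fun j hj => hf j (Finset.mem_insert_of_mem hj))

end

section

variable {A : Type} [CommRing A] {G : Type} [AddCommGroup G]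

/-- a power series `O(X^m)` -/
def Ord (m : ℕ) (P : PowerSeries A) : Prop := ∀ i < m, coeff i P = 0

theorem Ord.mul {m n : ℕ} {P Q : PowerSeries A} (hP : Ord m P) (hQ : Ord n Q) :
    Ord (m + n) (P * Q) := by
  intro i hi
  rw [coeff_mul]
  refine Finset.sum_eq_zero fun x hx => ?_
  rw [Finset.HasAntidiagonal.mem_antidiagonal] at hx
  rcases lt_or_ge x.1 m with h | h
  · rw [hP _ h, zero_mul]
  · rw [hQ _ (by omega), mul_zero]

theorem coeff_mul_ord {m : ℕ} {P Q : PowerSeries A} (hQ : constantCoeff Q = 1) (hP : Ord m P) :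
    coeff m (Q * P) = coeff m P := by
  rw [coeff_mul, Finset.sum_eq_single (0, m)]
  · simp [hQ]
  · intro x hx hne
    rw [Finset.HasAntidiagonal.mem_antidiagonal] at hx
    rw [hP x.2, mul_zero]
    rcases x with ⟨a, b⟩
    simp only at hx
    rcases Nat.eq_zero_or_pos a with h | h
    · subst h
      exact absurd (by rw [← hx, zero_add]) hne
    · simp only; omega
  · intro h
    exact absurd (Finset.HasAntidiagonal.mem_antidiagonal.2 (zero_add m)) h

variable (E : G → PowerSeries A) (hE : ∀ u v, E (u + v) = E u * E v)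
  (h1 : ∀ u, constantCoeff (E u) = 1) (ℓ : A →+ ℚ)

omit [AddCommGroup G] in
include h1 in
theorem ord_eps (v : G) : Ord 1 (E v - 1) := by
  intro i hi
  obtain rfl : i = 0 := by omega
  simp [h1]

include hE h1 in
theorem isPoly_coeff (n : ℕ) : ∀ (m J : ℕ) (P : PowerSeries A), Ord m P → J ≤ m + n →
    IsPoly n (fun u => ℓ (coeff J (E u * P))) := by
  induction n with
  | zero =>
    intro m J P hP hJ u v
    have h : ∀ u, coeff J (E u * P) = coeff J P := by
      intro u
      exact coeff_mul_ord (h1 u) fun i hi => hP i (by omega)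
    simp only [h]
  | succ n ih =>
    intro m J P hP hJ v
    have := ih (m + 1) J ((E v - 1) * P)
      (fun i hi => (ord_eps E h1 v).mul hP i (by omega)) (by omega)
    refine (congrArg (IsPoly n) ?_).mp this
    funext u
    rw [← map_sub, ← map_sub, hE]
    congr 2
    ring

/-- the additive group generated by the `E u - 1` -/
def epsSpan : AddSubgroup (PowerSeries A) := AddSubgroup.closure (Set.range fun u => E u - 1)

include hE in
theorem eps_mul_mem (v : G) (P : PowerSeries A) (hP : P ∈ epsSpan E) :
    (E v - 1) * P ∈ epsSpan E := by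
  induction hP using AddSubgroup.closure_induction with
  | mem x hx =>
    obtain ⟨u, rfl⟩ := hx
    have : (E v - 1) * (E u - 1) = (E (v + u) - 1) - (E v - 1) - (E u - 1) := by
      rw [hE]; ring
    simp only [this]
    exact sub_mem (sub_mem (AddSubgroup.subset_closure ⟨_, rfl⟩)
      (AddSubgroup.subset_closure ⟨_, rfl⟩)) (AddSubgroup.subset_closure ⟨_, rfl⟩)
  | zero => rw [mul_zero]; exact zero_mem _
  | add x y _ _ hx hy => rw [mul_add]; exact add_mem hx hy
  | neg x _ hx => rw [mul_neg]; exact neg_mem hx

omit [AddCommGroup G] in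
theorem coeff_eps {d J : ℕ} (hv : ∀ j, d + 1 ≤ j → j < J → ∀ u, coeff j (E u) = 0)
    (P : PowerSeries A) (hP : P ∈ epsSpan E) (j : ℕ) (hj : d + 1 ≤ j) (hj' : j < J) :
    coeff j P = 0 := by
  induction hP using AddSubgroup.closure_induction with
  | mem x hx =>
    obtain ⟨u, rfl⟩ := hx
    simp only [map_sub]
    rw [hv j hj hj' u, coeff_one, if_neg (by omega), sub_zero]
  | zero => simp
  | add x y _ _ hx hy => rw [map_add, hx, hy, add_zero]
  | neg x _ hx => rw [map_neg, hx, neg_zero]

include hE h1 in
theorem isPoly_eps {d J : ℕ} (hv : ∀ j, d + 1 ≤ j → j < J → ∀ u, coeff j (E u) = 0) (n : ℕ) :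
    ∀ (m : ℕ) (P : PowerSeries A), P ∈ epsSpan E → Ord m P → d + 1 ≤ m + n →
    IsPoly n (fun u => ℓ (coeff J (E u * P))) := by
  induction n with
  | zero =>
    intro m P hP hm hd u v
    have hJ : Ord J P := by
      intro i hi
      rcases lt_or_ge i m with h | h
      · exact hm i h
      · exact coeff_eps E hv P hP i (by omega) hi
    have h : ∀ u, coeff J (E u * P) = coeff J P := fun u => coeff_mul_ord (h1 u) hJ
    simp only [h]
  | succ n ih =>
    intro m P hP hm hd v
    have := ih (m + 1) ((E v - 1) * P) (eps_mul_mem E hE v P hP)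
      (fun i hi => (ord_eps E h1 v).mul hm i (by omega)) (by omega)
    refine (congrArg (IsPoly n) ?_).mp this
    funext u
    rw [← map_sub, ← map_sub, hE]
    congr 2
    ring

include hE h1 in
/-- if the coefficients between `d + 1` and `J - 1` vanish then the coefficient `J` is a polynomial
function of degree `≤ d + 1` -/
theorem isPoly_top {d J : ℕ} (hv : ∀ j, d + 1 ≤ j → j < J → ∀ u, coeff j (E u) = 0) :
    IsPoly (d + 1) (fun u => ℓ (coeff J (E u))) := by
  intro v
  have := isPoly_eps E hE h1 ℓ hv d 1 (E v - 1) (AddSubgroup.subset_closure ⟨v, rfl⟩)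
    (ord_eps E h1 v) (by omega)
  refine (congrArg (IsPoly d) ?_).mp this
  funext u
  rw [← map_sub, ← map_sub, hE]
  congr 2
  ring

end

end Pool.Agent.LibQC8
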