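import Pool.Agent.LibQC8.Cyc
import Pool.Agent.LibQC8.Poly

/-!
The quadric criterion.
-/

open scoped Classical
open MvPolynomial

namespace Pool.Agent.LibQC8

open Pool.Agent.LibBH2

variable {k F : Type} [Field k] [Field F] [Algebra k F]

/-- the Chow ring of zero-cycles on the symmetric powers -/
abbrev Ch (k F : Type) [Field k] [Field F] [Algebra k F] : Type :=
  MvPolynomial (Place k F) ℚ ⧸ relIdeal k F

/-- the class of a point of the curve -/
noncomputable def y (a : Place k F) : Ch k F := Ideal.Quotient.mk (relIdeal k F) (X a)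

theorem mk_mono (D : Multiset (Place k F)) :
    Ideal.Quotient.mk (relIdeal k F) (mono D) = (D.map y).prod := by
  rw [mono_eq, map_multiset_prod, Multiset.map_map]
  rfl

theorem mk_smul (q : ℚ) (x : MvPolynomial (Place k F) ℚ) :
    Ideal.Quotient.mk (relIdeal k F) (q • x) = q • Ideal.Quotient.mk (relIdeal k F) x := rfl

/-- the power sum relations: push-forward of principal divisors by the diagonal `C → C^(j)` -/
theorem power_rel (hF : IsFunctionField k F) (D : Div k F) (hD : IsPrincipal k F D) (j : ℕ) :
    (D.sum fun a n => n • y a ^ j) = 0 := by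
  obtain ⟨φ, hφ, h⟩ := hD
  set c : Multiset (Place k F) →₀ ℤ := ∑ v ∈ D.support,
    Finsupp.single (Finset.univ.val.map ((fun _ : Fin j => v) : Fin j → Place k F)) (v.ord φ)
    with hc
  have hp : IsPush j c := by
    refine ⟨F, _, _, fun _ => .inr (AlgHom.id k F), φ, D.support,
      fun v _ => v, hF, hφ, ?_, ?_, rfl⟩
    · intro v hv
      rw [Finsupp.mem_support_iff, h v]
      exact hv
    · intro v _ i f hf
      simpa using hf
  have hmem : ι c ∈ relIdeal k F := Submodule.subset_span ⟨c, ⟨j, hp⟩, rfl⟩
  have h0 : Ideal.Quotient.mk (relIdeal k F) (ι c) = 0 := Ideal.Quotient.eq_zero_iff_mem.2 hmem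
  rw [hc, map_sum, map_sum] at h0
  rw [← h0, Finsupp.sum]
  refine Finset.sum_congr rfl fun v _ => ?_
  rw [ι_single, mk_smul, mk_mono, h v, Multiset.map_map, Int.cast_smul_eq_zsmul]
  simp

/-- an additive map on divisors from its values at points -/
noncomputable def ev (g : Place k F → Ch k F) : (Place k F →₀ ℤ) →+ Ch k F :=
  Finsupp.liftAddHom fun a => (zmultiplesHom (Ch k F)) (g a)

theorem ev_apply (g : Place k F → Ch k F) (D : Place k F →₀ ℤ) :
    ev g D = D.sum fun a n => n • g a := by
  rw [ev, Finsupp.liftAddHom_apply]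
  rfl

theorem ev_single (g : Place k F → Ch k F) (a : Place k F) (n : ℤ) :
    ev g (Finsupp.single a n) = n • g a := by
  rw [ev, Finsupp.liftAddHom_apply_single]
  rfl

/-- `v a = a - w` -/
noncomputable def vv (w a : Place k F) : Ch k F := y a - y w

theorem lam_prin (hF : IsFunctionField k F) (w : Place k F) (j : ℕ) (D : Div k F)
    (hD : IsPrincipal k F D) : ev (fun a => vv w a ^ j) D = 0 := by
  have h1 : ∀ a : Place k F, vv w a ^ j =
      ∑ i ∈ Finset.range (j + 1), y a ^ i * ((-y w) ^ (j - i) * (j.choose i : Ch k F)) := by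
    intro a
    rw [vv, sub_eq_add_neg, add_pow]
    exact Finset.sum_congr rfl fun i _ => by ring
  rw [ev_apply]
  simp only [h1, Finset.smul_sum]
  rw [Finsupp.sum, Finset.sum_comm]
  refine Finset.sum_eq_zero fun i _ => ?_
  have := power_rel hF D hD i
  rw [Finsupp.sum] at this
  rw [← zero_mul ((-y w) ^ (j - i) * (j.choose i : Ch k F)), ← this, Finset.sum_mul]
  exact Finset.sum_congr rfl fun a _ => by rw [smul_mul_assoc]

theorem eq_zero_of_nsmul (n : ℕ) (hn : 0 < n) (x : Ch k F) (h : n • x = 0) : x = 0 := by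
  rw [← Nat.cast_smul_eq_nsmul ℚ n] at h
  rcases smul_eq_zero.1 h with h | h
  · exact absurd h (by positivity)
  · exact h

theorem isUnit_gen (w a : Place k F) :
    IsUnit (1 + PowerSeries.C (vv w a) * PowerSeries.X : PowerSeries (Ch k F)) := by
  rw [PowerSeries.isUnit_iff_constantCoeff]
  simp

/-- the unit `1 + (a - w) T` -/
noncomputable def gen (w a : Place k F) : (PowerSeries (Ch k F))ˣ := (isUnit_gen w a).unit

theorem gen_val (w a : Place k F) : (gen w a : PowerSeries (Ch k F)) =
    1 + PowerSeries.C (vv w a) * PowerSeries.X := rfl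

section Dlog

variable {A : Type} [CommRing A]

/-- logarithmic derivative -/
noncomputable def dlog : Additive (PowerSeries A)ˣ →+ PowerSeries A :=
  AddMonoidHom.mk' (fun f => PowerSeries.derivative A (f.toMul : PowerSeries A) *
    ((f.toMul⁻¹ : (PowerSeries A)ˣ) : PowerSeries A))
    (fun f g => by
      have h : ((f.toMul * g.toMul)⁻¹ : (PowerSeries A)ˣ) = f.toMul⁻¹ * g.toMul⁻¹ := by
        rw [mul_inv_rev, mul_comm]
      rw [toMul_add, h, Units.val_mul, Derivation.leibniz, Units.val_mul, smul_eq_mul,
        smul_eq_mul]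
      have hf := f.toMul.mul_inv
      have hg := g.toMul.mul_inv
      set a : PowerSeries A := (f.toMul : PowerSeries A)
      set a' : PowerSeries A := ((f.toMul⁻¹ : (PowerSeries A)ˣ) : PowerSeries A)
      set b : PowerSeries A := (g.toMul : PowerSeries A)
      set b' : PowerSeries A := ((g.toMul⁻¹ : (PowerSeries A)ˣ) : PowerSeries A)
      calc (a * PowerSeries.derivative A b + b * PowerSeries.derivative A a) *
            (a' * b')
          = PowerSeries.derivative A a * a' * (b * b') +
            PowerSeries.derivative A b * b' * (a * a') := by ring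
        _ = _ := by rw [hf, hg]; ring)

theorem dlog_apply (f : (PowerSeries A)ˣ) : dlog (Additive.ofMul f) =
    PowerSeries.derivative A (f : PowerSeries A) * ((f⁻¹ : (PowerSeries A)ˣ) : PowerSeries A) :=
  rfl

theorem coeff_dlog (f : (PowerSeries A)ˣ) (a : A)
    (hf : (f : PowerSeries A) = 1 + PowerSeries.C a * PowerSeries.X) (j : ℕ) :
    PowerSeries.coeff j (dlog (Additive.ofMul f)) = (-1) ^ j * a ^ (j + 1) := by
  have h1 : ((f⁻¹ : (PowerSeries A)ˣ) : PowerSeries A) = PowerSeries.mk fun j => (-a) ^ j := by
    apply Units.inv_eq_of_mul_eq_one_right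
    rw [hf]
    ext n
    rw [add_mul, one_mul, map_add, PowerSeries.coeff_mk, mul_assoc, PowerSeries.coeff_C_mul,
      PowerSeries.coeff_one]
    rcases n with _ | n
    · simp
    · rw [PowerSeries.coeff_succ_X_mul, PowerSeries.coeff_mk, if_neg (Nat.succ_ne_zero n), pow_succ]
      ring
  rw [dlog_apply, h1, hf]
  have h2 : PowerSeries.derivative A (1 + PowerSeries.C a * PowerSeries.X) = PowerSeries.C a := by
    ext n
    rw [PowerSeries.coeff_derivative]
    rcases n with _ | n
    · simp
    · simp [PowerSeries.coeff_one]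
  rw [h2, PowerSeries.coeff_C_mul, PowerSeries.coeff_mk, pow_succ, neg_pow]
  ring

theorem eq_one_of_dlog [Algebra ℚ A] (f : (PowerSeries A)ˣ)
    (h0 : PowerSeries.constantCoeff (f : PowerSeries A) = 1)
    (h : dlog (Additive.ofMul f) = 0) : f = 1 := by
  have h1 : PowerSeries.derivative A (f : PowerSeries A) = 0 := by
    have := congrArg (· * (f : PowerSeries A)) h
    simp only [dlog_apply, zero_mul, mul_assoc, Units.inv_mul, mul_one] at this
    exact this
  apply Units.ext
  ext n
  rw [Units.val_one, PowerSeries.coeff_one]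
  rcases n with _ | n
  · simpa using h0
  · rw [if_neg (Nat.succ_ne_zero n)]
    have h2 := congrArg (PowerSeries.coeff n) h1
    rw [PowerSeries.coeff_derivative, map_zero] at h2
    have h3 : ((n : ℚ) + 1) • PowerSeries.coeff (n + 1) (f : PowerSeries A) = 0 := by
      rw [← h2, Algebra.smul_def, map_add, map_natCast, map_one, mul_comm]
    rcases smul_eq_zero.1 h3 with h4 | h4
    · exfalso
      have : (0 : ℚ) < (n : ℚ) + 1 := by positivity
      exact this.ne' h4
    · exact h4

end Dlog

/-- the multiplicative family of power series -/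
noncomputable def EE (w : Place k F) : (Place k F →₀ ℤ) →+ Additive (PowerSeries (Ch k F))ˣ :=
  Finsupp.liftAddHom (N := Additive (PowerSeries (Ch k F))ˣ)
    fun a => zmultiplesHom _ (Additive.ofMul (gen w a))

theorem EE_single (w a : Place k F) (n : ℤ) :
    EE w (Finsupp.single a n) = n • Additive.ofMul (gen w a) := by
  rw [EE, Finsupp.liftAddHom_apply_single]
  rfl

theorem constantCoeff_EE (w : Place k F) (D : Place k F →₀ ℤ) :
    PowerSeries.constantCoeff ((EE w D).toMul : PowerSeries (Ch k F)) = 1 := by
  have h : (Units.map (PowerSeries.constantCoeff (R := Ch k F)).toMonoidHom).toAdditive.comp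
      (EE w) = 0 := by
    ext a
    simp [EE_single, gen_val]
  have h2 := congrArg (fun z => ((Additive.toMul z : (Ch k F)ˣ) : Ch k F)) (DFunLike.congr_fun h D)
  simpa using h2

theorem dlog_EE (w : Place k F) (D : Place k F →₀ ℤ) (j : ℕ) :
    PowerSeries.coeff j (dlog (EE w D)) = (-1) ^ j * ev (fun a => vv w a ^ (j + 1)) D := by
  have h : ((PowerSeries.coeff j : PowerSeries (Ch k F) →ₗ[Ch k F] Ch k F).toAddMonoidHom.comp
      dlog).comp (EE w) = (AddMonoidHom.mulLeft ((-1) ^ j)).comp (ev fun a => vv w a ^ (j + 1)) := by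
    refine Finsupp.addHom_ext fun a n => ?_
    simp only [AddMonoidHom.comp_apply, LinearMap.toAddMonoidHom_coe, EE_single, map_zsmul,
      ev_single, AddMonoidHom.coe_mulLeft]
    rw [coeff_dlog (gen w a) (vv w a) (gen_val w a)]
  exact DFunLike.congr_fun h D

/-- principal divisors give `1` -/
theorem EE_prin (hF : IsFunctionField k F) (w : Place k F) (D : Div k F) (hD : IsPrincipal k F D) :
    EE w D = 0 := by
  have h := eq_one_of_dlog (EE w D).toMul (constantCoeff_EE w D) (by
    ext j
    rw [ofMul_toMul, dlog_EE, lam_prin hF w (j + 1) D hD, mul_zero, map_zero])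
  exact congrArg Additive.ofMul h

/-- the multiplicative family of power series on the Jacobian -/
noncomputable def EP (hF : IsFunctionField k F) (w : Place k F) :
    Pic0 k F →+ Additive (PowerSeries (Ch k F))ˣ :=
  QuotientAddGroup.lift ((PrinDiv k F).addSubgroupOf (Div0 k F)) ((EE w).comp (Div0 k F).subtype)
    fun D hD => EE_prin hF w D hD

theorem gen_self (w : Place k F) : gen w w = 1 := by
  apply Units.ext
  rw [gen_val, vv, sub_self]
  simp

theorem EP_cl (hF : IsFunctionField k F) (w : Place k F) (D : Multiset (Place k F)) :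
    (EP hF w (cl w D)).toMul = (D.map (gen w)).prod := by
  show (EE w (rel w D)).toMul = _
  rw [rel]
  show (EE w (D.map fun a => Finsupp.single a (1 : ℤ) - Finsupp.single w 1).sum).toMul = _
  induction D using Multiset.induction_on with
  | empty => simp
  | cons a D ih =>
    rw [Multiset.map_cons, Multiset.sum_cons, map_add, toMul_add, ih, map_sub, EE_single,
      EE_single, gen_self, Multiset.map_cons, Multiset.prod_cons]
    simp

/-- the coefficient `j` of the power series of a class -/
noncomputable def ee (hF : IsFunctionField k F) (w : Place k F) (j : ℕ) (u : Pic0 k F) : Ch k F :=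
  PowerSeries.coeff j ((EP hF w u).toMul : PowerSeries (Ch k F))

theorem ee_cons_zero (hF : IsFunctionField k F) (w a : Place k F) (D : Multiset (Place k F)) :
    ee hF w 0 (cl w (a ::ₘ D)) = ee hF w 0 (cl w D) := by
  rw [ee, ee, EP_cl, EP_cl, Multiset.map_cons, Multiset.prod_cons, Units.val_mul, gen_val, add_mul,
    one_mul, map_add, mul_assoc, PowerSeries.coeff_C_mul, PowerSeries.coeff_zero_X_mul, mul_zero,
    add_zero]

theorem ee_cons_succ (hF : IsFunctionField k F) (w a : Place k F) (D : Multiset (Place k F))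
    (j : ℕ) : ee hF w (j + 1) (cl w (a ::ₘ D)) =
      ee hF w (j + 1) (cl w D) + vv w a * ee hF w j (cl w D) := by
  rw [ee, ee, ee, EP_cl, EP_cl, Multiset.map_cons, Multiset.prod_cons, Units.val_mul, gen_val,
    add_mul, one_mul, map_add, mul_assoc, PowerSeries.coeff_C_mul, PowerSeries.coeff_succ_X_mul]

theorem ee_nil (hF : IsFunctionField k F) (w : Place k F) (j : ℕ) :
    ee hF w j (cl w 0) = if j = 0 then 1 else 0 := by
  rw [ee, EP_cl, Multiset.map_zero, Multiset.prod_zero, Units.val_one, PowerSeries.coeff_one]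

theorem ee_cl_zero (hF : IsFunctionField k F) (w : Place k F) (D : Multiset (Place k F)) :
    ee hF w 0 (cl w D) = 1 := by
  induction D using Multiset.induction_on with
  | empty => rw [ee_nil, if_pos rfl]
  | cons a D ih => rw [ee_cons_zero, ih]

/-- the coefficients of large index vanish at effective divisors -/
theorem ee_cl (hF : IsFunctionField k F) (w : Place k F) (D : Multiset (Place k F)) :
    ∀ j, D.card < j → ee hF w j (cl w D) = 0 := by
  induction D using Multiset.induction_on with
  | empty =>
    intro j hj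
    rw [ee_nil, if_neg (by simp at hj; omega)]
  | cons a D ih =>
    intro j hj
    rw [Multiset.card_cons] at hj
    obtain ⟨j, rfl⟩ : ∃ i, j = i + 1 := ⟨j - 1, by omega⟩
    rw [ee_cons_succ, ih _ (by omega), ih _ (by omega), mul_zero, add_zero]

/-- the class of an effective divisor in the Chow ring -/
theorem class_eq (hF : IsFunctionField k F) (w : Place k F) (D : Multiset (Place k F)) :
    (D.map y).prod = ∑ j ∈ Finset.range (D.card + 1), ee hF w j (cl w D) * y w ^ (D.card - j) := by
  induction D using Multiset.induction_on with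
  | empty => simp [ee_cl_zero]
  | cons a D ih =>
    rw [Multiset.map_cons, Multiset.prod_cons, Multiset.card_cons, Finset.sum_range_succ']
    have h1 : ∀ j ∈ Finset.range (D.card + 1),
        ee hF w (j + 1) (cl w (a ::ₘ D)) * y w ^ (D.card + 1 - (j + 1)) =
        ee hF w (j + 1) (cl w D) * y w ^ (D.card - j) +
          vv w a * (ee hF w j (cl w D) * y w ^ (D.card - j)) := by
      intro j _
      rw [ee_cons_succ, Nat.add_sub_add_right]
      ring
    rw [Finset.sum_congr rfl h1, Finset.sum_add_distrib, ← Finset.mul_sum, ← ih,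
      Finset.sum_range_succ, ee_cl hF w D (D.card + 1) (by omega), zero_mul, add_zero, ee_cl_zero,
      Nat.sub_zero, one_mul]
    have h2 : y w * (D.map y).prod = (∑ j ∈ Finset.range D.card,
        ee hF w (j + 1) (cl w D) * y w ^ (D.card - j)) + y w ^ (D.card + 1) := by
      rw [ih, Finset.mul_sum, Finset.sum_range_succ', ee_cl_zero, Nat.sub_zero, one_mul,
        ← pow_succ']
      congr 1
      refine Finset.sum_congr rfl fun j hj => ?_
      rw [Finset.mem_range] at hj
      rw [show D.card - j = (D.card - (j + 1)) + 1 by omega, pow_succ]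
      ring
    rw [add_right_comm, ← h2, vv]
    ring

/-- the family of power series on the subgroup `M` -/
noncomputable def EM (hF : IsFunctionField k F) (w : Place k F) (M : AddSubgroup (Pic0 k F))
    (u : M) : PowerSeries (Ch k F) := ((EP hF w (u : Pic0 k F)).toMul : PowerSeries (Ch k F))

theorem EM_add (hF : IsFunctionField k F) (w : Place k F) (M : AddSubgroup (Pic0 k F)) (u v : M) :
    EM hF w M (u + v) = EM hF w M u * EM hF w M v := by
  rw [EM, AddSubgroup.coe_add, map_add, toMul_add, Units.val_mul]
  rfl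

theorem constantCoeff_EM (hF : IsFunctionField k F) (w : Place k F) (M : AddSubgroup (Pic0 k F))
    (u : M) : PowerSeries.constantCoeff (EM hF w M u) = 1 := by
  obtain ⟨u, hu⟩ := u
  induction u using QuotientAddGroup.induction_on with
  | H D => exact constantCoeff_EE w D

theorem eq_zero_of_dual (x : Ch k F) (h : ∀ ℓ : Module.Dual ℚ (Ch k F), ℓ x = 0) : x = 0 :=
  (Module.forall_dual_apply_eq_zero_iff ℚ x).1 h

/-- the classes `e_J` vanish on `M` for `J > d` -/
theorem ee_vanish (hF : IsFunctionField k F) (w : Place k F) (M : AddSubgroup (Pic0 k F)) (d : ℕ)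
    (hM : NoHypersurface w M d) (J : ℕ) (hJ : d + 1 ≤ J) (u : M) :
    PowerSeries.coeff J (EM hF w M u) = 0 := by
  induction J using Nat.strong_induction_on generalizing u with
  | _ J ih =>
    refine eq_zero_of_dual _ fun ℓ => ?_
    refine hM (fun u => ℓ (PowerSeries.coeff J (EM hF w M u))) ?_ ?_ u
    · exact isPoly_top (EM hF w M) (EM_add hF w M) (constantCoeff_EM hF w M) ℓ.toAddMonoidHom
        fun j hj hj' u => ih j hj' hj u
    · intro D u hD hu
      have : PowerSeries.coeff J (EM hF w M u) = ee hF w J (cl w D) := by rw [EM, hu, ee]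
      simp only [this]
      rw [ee_cl hF w D J (by omega), map_zero]

/-- the coefficients on a coset of `M` are polynomial functions of degree `≤ d` -/
theorem isPoly_coset (hF : IsFunctionField k F) (w : Place k F) (M : AddSubgroup (Pic0 k F)) (d : ℕ)
    (hM : NoHypersurface w M d) (ξ : Pic0 k F) (i : ℕ) (z : Ch k F) (ℓ : Module.Dual ℚ (Ch k F)) :
    IsPoly d (fun u : M => ℓ (ee hF w i (ξ + u) * z)) := by
  have h : ∀ u : M, ℓ (ee hF w i (ξ + u) * z) = ∑ x ∈ Finset.HasAntidiagonal.antidiagonal i,
      ℓ (PowerSeries.coeff x.2 (EM hF w M u) * (ee hF w x.1 ξ * z)) := by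
    intro u
    rw [ee, map_add, toMul_add, Units.val_mul, PowerSeries.coeff_mul, Finset.sum_mul, map_sum]
    refine Finset.sum_congr rfl fun x _ => ?_
    congr 1
    rw [ee, EM]
    ring
  simp only [h]
  refine IsPoly.sum _ _ fun x _ => ?_
  rcases lt_or_ge d x.2 with hi | hi
  · refine (congrArg (IsPoly d) ?_).mp (IsPoly.zero d)
    funext u
    rw [ee_vanish hF w M d hM x.2 hi, zero_mul, map_zero]
  · have h1 := isPoly_coeff (EM hF w M) (EM_add hF w M) (constantCoeff_EM hF w M)
      ℓ.toAddMonoidHom x.2 0 x.2 (PowerSeries.C (ee hF w x.1 ξ * z))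
      (fun i hi => absurd hi (by omega)) (by omega)
    refine (congrArg (IsPoly d) ?_).mp (h1.mono hi)
    funext u
    rw [PowerSeries.coeff_mul_C]
    rfl

/-- **The hypersurface criterion.** -/
theorem criterion (hF : IsFunctionField k F) (w : Place k F) (M : AddSubgroup (Pic0 k F)) (d : ℕ)
    (hM : NoHypersurface w M d) (ξ : Pic0 k F) (N n : ℕ) (D : Fin n → Multiset (Place k F))
    (m : Fin n → ℤ) (u : Fin n → M) (hD : ∀ j, (D j).card = N) (hu : ∀ j, cl w (D j) = ξ + u j)
    (h : ∀ f : M → ℚ, IsPoly d f → ∑ j, (m j : ℚ) * f (u j) = 0) :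
    IsTorsionCycle N (∑ j, Finsupp.single (D j) (m j)) := by
  refine torsion_of_mem ?_ ?_
  · intro E hE
    have := Finsupp.support_finsetSum hE
    rw [Finset.mem_biUnion] at this
    obtain ⟨j, _, hj⟩ := this
    have := Finsupp.support_single_subset hj
    rw [Finset.mem_singleton] at this
    rw [this, hD]
  · rw [← Ideal.Quotient.eq_zero_iff_mem, map_sum, map_sum]
    refine eq_zero_of_dual _ fun ℓ => ?_
    rw [map_sum, ← h (fun u => ∑ i ∈ Finset.range (N + 1),
      ℓ (ee hF w i (ξ + u) * y w ^ (N - i))) ?_]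
    · refine Finset.sum_congr rfl fun j _ => ?_
      rw [ι_single, mk_smul, mk_mono, class_eq hF w, hD, map_smul, map_sum, smul_eq_mul, hu]
    · exact IsPoly.sum _ _ fun i _ => isPoly_coset hF w M d hM ξ i _ ℓ

end Pool.Agent.LibQC8
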