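import Pool.Agent.LibQC8.Defs

/-!
The graded ring `⨁_N Z_0(C^(N)) ⊗ ℚ` of zero-cycles on the symmetric powers of a curve is a
polynomial ring, and the cycles rationally equivalent to zero form an ideal.
-/

open scoped Classical
open MvPolynomial

namespace Pool.Agent.LibQC8

open Pool.Agent.LibBH2

section Mono

variable {σ : Type}

/-- the point `D` of `⋃ C^(N)` as a monomial -/
noncomputable def mono (D : Multiset σ) : MvPolynomial σ ℚ := monomial (Multiset.toFinsupp D) 1

theorem mono_zero : mono (0 : Multiset σ) = 1 := by simp [mono]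

theorem mono_cons (a : σ) (D : Multiset σ) : mono (a ::ₘ D) = X a * mono D := by
  rw [mono, mono, ← Multiset.singleton_add, map_add, Multiset.toFinsupp_singleton, X,
    monomial_mul, one_mul]

theorem mono_eq (D : Multiset σ) : mono D = (D.map X).prod := by
  induction D using Multiset.induction_on with
  | empty => simp [mono_zero]
  | cons a D ih => rw [mono_cons, ih, Multiset.map_cons, Multiset.prod_cons]

/-- integral zero-cycles on the symmetric powers as polynomials -/
noncomputable def ι : (Multiset σ →₀ ℤ) →+ MvPolynomial σ ℚ :=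
  Finsupp.liftAddHom fun D => AddMonoidHom.mk' (fun n : ℤ => (n : ℚ) • mono D)
    (fun m n => by rw [Int.cast_add, add_smul])

theorem ι_single (D : Multiset σ) (n : ℤ) : ι (Finsupp.single D n) = (n : ℚ) • mono D := by
  simp [ι]

theorem ι_apply (c : Multiset σ →₀ ℤ) : ι c = c.sum fun D n => (n : ℚ) • mono D := by
  simp [ι, Finsupp.liftAddHom_apply]

theorem coeff_ι (c : Multiset σ →₀ ℤ) (D : Multiset σ) :
    coeff (Multiset.toFinsupp D) (ι c) = (c D : ℚ) := by
  rw [ι_apply, Finsupp.sum, coeff_sum]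
  simp only [coeff_smul, mono, coeff_monomial, EmbeddingLike.apply_eq_iff_eq, smul_eq_mul,
    mul_ite, mul_one, mul_zero]
  rw [Finset.sum_ite_eq']
  split_ifs with h
  · rfl
  · rw [Finsupp.notMem_support_iff.1 h]; simp

theorem ι_injective : Function.Injective (ι (σ := σ)) := by
  intro c d h
  ext D
  have := congrArg (coeff (Multiset.toFinsupp D)) h
  rw [coeff_ι, coeff_ι] at this
  exact_mod_cast this

theorem mono_homogeneous (D : Multiset σ) : (mono D).IsHomogeneous D.card := by
  rw [mono]
  apply isHomogeneous_monomial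
  have := Multiset.toFinsupp_sum_eq D
  rw [← this]
  rfl

theorem ι_homogeneous (N : ℕ) (c : Multiset σ →₀ ℤ) (h : ∀ D ∈ c.support, D.card = N) :
    (ι c).IsHomogeneous N := by
  rw [ι_apply, Finsupp.sum]
  refine IsHomogeneous.sum _ _ _ fun D hD => ?_
  rw [← h D hD, smul_eq_C_mul]
  have := (isHomogeneous_C σ ((c D : ℤ) : ℚ)).mul (mono_homogeneous D)
  rwa [zero_add] at this

/-- clearing denominators -/
theorem clear_denominators (G : Set (Multiset σ →₀ ℤ)) (x : MvPolynomial σ ℚ)
    (hx : x ∈ Submodule.span ℚ (ι '' G)) :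
    ∃ n : ℕ, 0 < n ∧ ∃ z ∈ AddSubgroup.closure G, (n : ℚ) • x = ι z := by
  induction hx using Submodule.span_induction with
  | mem x hx =>
    obtain ⟨g, hg, rfl⟩ := hx
    exact ⟨1, one_pos, g, AddSubgroup.subset_closure hg, by simp⟩
  | zero => exact ⟨1, one_pos, 0, zero_mem _, by simp⟩
  | add x y _ _ hx hy =>
    obtain ⟨n, hn, z, hz, e⟩ := hx
    obtain ⟨m, hm, t, ht, e'⟩ := hy
    refine ⟨n * m, Nat.mul_pos hn hm, m • z + n • t, add_mem (nsmul_mem hz _) (nsmul_mem ht _), ?_⟩
    rw [map_add, map_nsmul, map_nsmul, ← e, ← e', ← Nat.cast_smul_eq_nsmul ℚ m,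
      ← Nat.cast_smul_eq_nsmul ℚ n, smul_smul, smul_smul, smul_add]
    push_cast
    rw [mul_comm (m : ℚ) n]
  | smul q x _ hx =>
    obtain ⟨n, hn, z, hz, e⟩ := hx
    refine ⟨n * q.den, Nat.mul_pos hn q.pos, q.num • z, zsmul_mem hz _, ?_⟩
    rw [map_zsmul, ← e, ← Int.cast_smul_eq_zsmul ℚ q.num, smul_smul, smul_smul]
    congr 1
    push_cast
    have : (q.den : ℚ) * q = q.num := Rat.den_mul_eq_num q
    rw [← this]
    ring

end Mono

variable {k F : Type} [Field k] [Field F] [Algebra k F]

/-- the cycles rationally equivalent to zero on the symmetric powers -/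
noncomputable def relSpan (k F : Type) [Field k] [Field F] [Algebra k F] :
    Submodule ℚ (MvPolynomial (Place k F) ℚ) :=
  Submodule.span ℚ (ι '' {c | ∃ N, IsPush N c})

theorem isPush_cons {N : ℕ} {c : Multiset (Place k F) →₀ ℤ} (h : IsPush N c) (a : Place k F) :
    ∃ c', IsPush (N + 1) c' ∧ ι c' = X a * ι c := by
  obtain ⟨H, _, _, T, φ, S, p, hH, hφ, hS, hp, rfl⟩ := h
  refine ⟨∑ v ∈ S, Finsupp.single (Finset.univ.val.map (Fin.cons a (p v) : Fin (N + 1) → _))
    (v.ord φ), ⟨H, _, _, Fin.cons (.inl a) T, φ, S, fun v => Fin.cons a (p v), hH, hφ, hS, ?_, rfl⟩,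
    ?_⟩
  · intro v hv i
    refine Fin.cases ?_ (fun i => ?_) i
    · simp [Spec]
    · simpa using hp v hv i
  · rw [map_sum, map_sum, Finset.mul_sum]
    refine Finset.sum_congr rfl fun v _ => ?_
    rw [ι_single, ι_single, mul_smul_comm, ← mono_cons]
    congr 2
    rw [Fin.univ_succ]
    simp

theorem X_mul_mem (a : Place k F) (x : MvPolynomial (Place k F) ℚ) (hx : x ∈ relSpan k F) :
    X a * x ∈ relSpan k F := by
  induction hx using Submodule.span_induction with
  | mem x hx =>
    obtain ⟨c, ⟨N, hc⟩, rfl⟩ := hx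
    obtain ⟨c', hc', e⟩ := isPush_cons hc a
    rw [← e]
    exact Submodule.subset_span ⟨c', ⟨N + 1, hc'⟩, rfl⟩
  | zero => simp
  | add x y _ _ hx hy => rw [mul_add]; exact add_mem hx hy
  | smul q x _ hx => rw [mul_smul_comm]; exact Submodule.smul_mem _ _ hx

theorem mul_mem_relSpan (r x : MvPolynomial (Place k F) ℚ) (hx : x ∈ relSpan k F) :
    r * x ∈ relSpan k F := by
  induction r using MvPolynomial.induction_on with
  | C q => rw [← smul_eq_C_mul]; exact Submodule.smul_mem _ _ hx
  | add p q hp hq => rw [add_mul]; exact add_mem hp hq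
  | mul_X p a hp =>
    rw [mul_comm p, mul_assoc]
    exact X_mul_mem a _ hp

/-- the ideal of cycles rationally equivalent to zero -/
noncomputable def relIdeal (k F : Type) [Field k] [Field F] [Algebra k F] :
    Ideal (MvPolynomial (Place k F) ℚ) where
  carrier := relSpan k F
  zero_mem' := zero_mem _
  add_mem' := fun h h' => add_mem h h'
  smul_mem' := fun r x hx => mul_mem_relSpan r x hx

theorem card_of_isPush {N : ℕ} {c : Multiset (Place k F) →₀ ℤ} (h : IsPush N c) :
    ∀ D ∈ c.support, D.card = N := by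
  obtain ⟨H, _, _, T, φ, S, p, hH, hφ, hS, hp, rfl⟩ := h
  intro D hD
  have := Finsupp.support_finsetSum hD
  rw [Finset.mem_biUnion] at this
  obtain ⟨v, _, hv⟩ := this
  have := Finsupp.support_single_subset hv
  rw [Finset.mem_singleton] at this
  rw [this]
  simp

/-- a cycle on `C^(N)` in the ideal is torsion -/
theorem torsion_of_mem {N : ℕ} {c : Multiset (Place k F) →₀ ℤ} (hN : ∀ D ∈ c.support, D.card = N)
    (h : ι c ∈ relIdeal k F) : IsTorsionCycle N c := by
  have h1 : ι c ∈ Submodule.span ℚ (ι '' {c' : Multiset (Place k F) →₀ ℤ | IsPush N c'}) := by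
    have h2 : homogeneousComponent N (ι c) = ι c :=
      homogeneousComponent_of_mem (ι_homogeneous N c hN) ▸ by simp
    rw [← h2]
    have h3 : ι c ∈ relSpan k F := h
    have h4 := Submodule.mem_map_of_mem (f := homogeneousComponent N) h3
    rw [relSpan, Submodule.map_span] at h4
    refine Submodule.span_le.2 ?_ h4
    rintro _ ⟨_, ⟨c', ⟨N', hc'⟩, rfl⟩, rfl⟩
    rw [homogeneousComponent_of_mem (ι_homogeneous N' c' (card_of_isPush hc'))]
    split_ifs with e
    · subst e
      exact Submodule.subset_span ⟨c', hc', rfl⟩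
    · exact zero_mem _
  obtain ⟨n, hn, z, hz, e⟩ := clear_denominators _ _ h1
  refine ⟨n, hn, ?_⟩
  have : n • c = z := ι_injective (by rw [map_nsmul, ← e, ← Nat.cast_smul_eq_nsmul ℚ n])
  rw [this]
  exact hz

end Pool.Agent.LibQC8
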