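import Pool.Agent.LibBH2.Place

/-!
Curves over an algebraically closed field `k`, given by their function fields `F`: the points of the
smooth projective curve `C` are the places of `F` over `k`. Divisor classes of degree zero, effective
divisors (the points of the symmetric powers `C^(N)`), zero-cycles on `C^(N)` and rational
equivalence.
-/

open scoped Classical

namespace Pool.Agent.LibQC8

open Pool.Agent.LibBH2

section

variable (k F : Type) [Field k] [Field F] [Algebra k F]

/-- `F` is a function field of one variable over `k`. -/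
def IsFunctionField : Prop :=
  ∃ s : F, Transcendental k s ∧ FiniteDimensional (IntermediateField.adjoin k {s}) F

/-- The divisors `∑ n_a a` on the curve of `F`. -/
abbrev Div : Type := Place k F →₀ ℤ

/-- The degree of a divisor. -/
noncomputable def deg : Div k F →+ ℤ := Finsupp.liftAddHom fun _ => AddMonoidHom.id ℤ

theorem deg_single (a : Place k F) (n : ℤ) : deg k F (Finsupp.single a n) = n := by
  simp [deg]

/-- The divisors of degree zero. -/
noncomputable def Div0 : AddSubgroup (Div k F) := (deg k F).ker

/-- The divisor `D` is principal: `D = ∑ ord_v(φ) v` for a non-zero function `φ`. -/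
def IsPrincipal (D : Div k F) : Prop := ∃ φ : F, φ ≠ 0 ∧ ∀ v : Place k F, D v = v.ord φ

/-- The principal divisors. -/
def PrinDiv : AddSubgroup (Div k F) where
  carrier := {D | IsPrincipal k F D}
  zero_mem' := ⟨1, one_ne_zero, fun v => by simp⟩
  add_mem' := by
    rintro D E ⟨φ, hφ, h⟩ ⟨ψ, hψ, h'⟩
    exact ⟨φ * ψ, mul_ne_zero hφ hψ, fun v => by
      simp [h v, h' v, v.ord_mul φ ψ hφ hψ]⟩
  neg_mem' := by
    rintro D ⟨φ, hφ, h⟩
    exact ⟨φ⁻¹, inv_ne_zero hφ, fun v => by simp [h v, v.ord_inv]⟩

/-- The group of divisor classes of degree zero: the points of the Jacobian of `C`. -/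
def Pic0 : Type := Div0 k F ⧸ (PrinDiv k F).addSubgroupOf (Div0 k F)

noncomputable instance : AddCommGroup (Pic0 k F) :=
  QuotientAddGroup.Quotient.addCommGroup ((PrinDiv k F).addSubgroupOf (Div0 k F))

/-- The class of a divisor of degree zero. -/
noncomputable def Pic0.mk (D : Div0 k F) : Pic0 k F := QuotientAddGroup.mk D

end

variable {k F : Type} [Field k] [Field F] [Algebra k F]

/-- The divisor `D - N w` for an effective divisor `D` of degree `N`. -/
noncomputable def rel (w : Place k F) (D : Multiset (Place k F)) : Div0 k F :=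
  ⟨(D.map fun a => Finsupp.single a (1 : ℤ) - Finsupp.single w 1).sum, by
    induction D using Multiset.induction_on with
    | empty => simp [Div0]
    | cons a D ih =>
      rw [Multiset.map_cons, Multiset.sum_cons]
      refine add_mem ?_ ih
      rw [Div0, AddMonoidHom.mem_ker, map_sub, deg_single, deg_single, sub_self]⟩

/-- The class of `D - N w` for an effective divisor `D` of degree `N`. -/
noncomputable def cl (w : Place k F) (D : Multiset (Place k F)) : Pic0 k F :=
  Pic0.mk k F (rel w D)

/-- `Spec v T a`: the `H`-point `T` of the curve `C` of `F` (a constant point, or a `k`-embedding of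
`F` in the function field `H`, i.e. a non-constant map from the curve of `H` to `C`) has the value
`a` at the point `v` of the curve of `H`. -/
def Spec {H : Type} [Field H] [Algebra k H] (v : Place k H) :
    Place k F ⊕ (F →ₐ[k] H) → Place k F → Prop
  | .inl b, a => a = b
  | .inr j, a => ∀ f : F, 0 < a.ord f → 0 < v.ord (j f)

/-- The zero-cycle `c` on the symmetric power `C^(N)` (whose points are the multisets of `N` points
of `C`) is the push-forward of the divisor of a function `φ` on a curve: `H` is a function field of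
one variable over `k`, `T 0, ..., T (N-1)` are `H`-points of `C`, and `c` is the sum over the places
`v` of `H` of `ord_v φ` times the point `T 0 (v) + ... + T (N-1) (v)` of `C^(N)`. -/
def IsPush (N : ℕ) (c : Multiset (Place k F) →₀ ℤ) : Prop :=
  ∃ (H : Type) (_ : Field H) (_ : Algebra k H) (T : Fin N → Place k F ⊕ (F →ₐ[k] H)) (φ : H)
    (S : Finset (Place k H)) (p : Place k H → Fin N → Place k F),
    IsFunctionField k H ∧ φ ≠ 0 ∧ (∀ v, v.ord φ ≠ 0 → v ∈ S) ∧
    (∀ v ∈ S, ∀ i, Spec v (T i) (p v i)) ∧
    c = ∑ v ∈ S, Finsupp.single (Finset.univ.val.map (p v)) (v.ord φ)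

/-- The zero-cycle `c` on `C^(N)` is torsion in the Chow group of zero-cycles. -/
def IsTorsionCycle (N : ℕ) (c : Multiset (Place k F) →₀ ℤ) : Prop :=
  ∃ n : ℕ, 0 < n ∧ n • c ∈ AddSubgroup.closure {c' | IsPush N c'}

/-- `f` is a polynomial function of degree `≤ d` on the abelian group `G`: its differences
`f (u + v) - f u` are polynomial functions of degree `≤ d - 1` of `u` (constant for `d = 0`). -/
def IsPoly {G : Type} [AddCommGroup G] : ℕ → (G → ℚ) → Prop
  | 0, f => ∀ u v, f (u + v) = f u
  | d + 1, f => ∀ v, IsPoly d fun u => f (u + v) - f u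

/-- No non-zero polynomial function of degree `≤ d + 1` on the subgroup `M` of the Jacobian vanishes
at all points `D - d w` of `M`, `D` effective of degree `d` (a point of `C^(d)`). -/
def NoHypersurface (w : Place k F) (M : AddSubgroup (Pic0 k F)) (d : ℕ) : Prop :=
  ∀ f : M → ℚ, IsPoly (d + 1) f →
    (∀ (D : Multiset (Place k F)) (u : M), D.card = d → (u : Pic0 k F) = cl w D → f u = 0) →
    ∀ u : M, f u = 0

/-- The group `G` has rank at most one. -/
def RankOne (G : Type) [AddCommGroup G] : Prop :=
  ∀ u v : G, ∃ a b : ℤ, (a ≠ 0 ∨ b ≠ 0) ∧ a • u = b • v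

/-- The elements `x i` of `G` are pairwise distinct modulo torsion. -/
def DistinctModTorsion {G : Type} [AddCommGroup G] {n : ℕ} (x : Fin n → G) : Prop :=
  ∀ i j, i ≠ j → ∀ q : ℤ, q ≠ 0 → q • x i ≠ q • x j

/-- `M` has rank one and `C^(d)` has at least `d + 2` points in `M`, distinct modulo torsion: there are
`d + 2` effective divisors `E i` of degree `d` with classes `x i` in `M`. -/
def RankOnePoints (w : Place k F) (M : AddSubgroup (Pic0 k F)) (d : ℕ) : Prop :=
  RankOne M ∧ ∃ (E : Fin (d + 2) → Multiset (Place k F)) (x : Fin (d + 2) → M),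
    (∀ i, (E i).card = d) ∧ (∀ i, (x i : Pic0 k F) = cl w (E i)) ∧ DistinctModTorsion x

/-- `M` contains a subgroup `M₀` satisfying `NoHypersurface`, with `M / M₀` torsion (e.g. `M₀ = M`). -/
def ManyPoints (w : Place k F) (M : AddSubgroup (Pic0 k F)) (d : ℕ) : Prop :=
  ∃ M₀ : AddSubgroup (Pic0 k F), M₀ ≤ M ∧ (∀ u ∈ M, ∃ q : ℤ, q ≠ 0 ∧ q • u ∈ M₀) ∧
    NoHypersurface w M₀ d

/-- The cycle `∑ m_j (u_j)` on `G` is killed by the polynomial functions of degree `≤ d` on `G`. -/
def PolyKilled (d : ℕ) {G : Type} [AddCommGroup G] {n : ℕ} (m : Fin n → ℤ) (u : Fin n → G) : Prop :=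
  ∀ f : G → ℚ, IsPoly d f → ∑ j, (m j : ℚ) * f (u j) = 0

/-- The cycle `∑ m_j (u_j)` on `G` has degree `0` and its sum in `G` is torsion. -/
def DegreeSumZero {G : Type} [AddCommGroup G] {n : ℕ} (m : Fin n → ℤ) (u : Fin n → G) : Prop :=
  ∑ j, m j = 0 ∧ ∃ q : ℕ, 0 < q ∧ q • ∑ j, m j • u j = 0

end Pool.Agent.LibQC8
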